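import Pool.Agent.H295R2.MK.Defs

set_option autoImplicit false

namespace H295MK

open Finset Filter Topology MeasureTheory Complex
open Pool.Agent.H306R2 hiding fr

noncomputable section

lemma dv_zero (n : ℕ) : dv ((0 : ℕ) : ℝ) n = if n = 1 then 1 else 0 := by
  rw [Nat.cast_zero, ← dA_apply, dA_zero, ArithmeticFunction.one_apply]

lemma mt_zero (a b : ℕ) (ha : 1 ≤ a) (hb : 1 ≤ b) : mt 0 a b = if a = b then 1 else 0 := by
  unfold mt
  rw [dv_zero]
  by_cases h : a = b
  · subst h
    have h1 : (a : ℝ) ≠ 0 := by exact_mod_cast (by omega : a ≠ 0)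
    rw [if_pos (dvd_refl a), if_pos (Nat.div_self (by omega)), if_pos rfl, div_self h1,
      Real.sqrt_one, mul_one]
  · rw [if_neg h]
    by_cases hd : a ∣ b
    · rw [if_pos hd]
      have : b / a ≠ 1 := by
        intro h1
        apply h
        have := Nat.div_mul_cancel hd
        rw [h1, one_mul] at this
        exact this
      rw [if_neg this, zero_mul]
    · rw [if_neg hd]

theorem twO (h : TwZ) : TwO := by
  intro B η δ h1 h2 h3 h4
  filter_upwards [h 0 B η δ h1 h2 h3 h4] with T hT τ hτ1 hτ2 a b ha haT hb hbY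
  have := hT τ hτ1 hτ2 a b ha haT hb hbY
  rw [mt_zero a b ha hb] at this
  simp only [pow_zero, one_mul] at this
  have h5 : (((if a = b then (1 : ℝ) else 0) : ℝ) : ℂ) = if a = b then 1 else 0 := by
    split_ifs <;> simp
  rw [h5] at this
  exact this

end

end H295MK
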