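import Pool.Agent.H306R2.RMain
import Pool.Agent.H223.EM.MDefs

set_option autoImplicit false

/-!
Lower bounds for the moments of zeta, exponent `2k`, `k = 2j` even, by conjugate test functions
with rational frequencies: definitions and statements.
-/

namespace H295MK

open Finset Filter Topology MeasureTheory Complex
open Pool.Agent.H306R2

noncomputable section

/-- the point `1/2 + it` -/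
def cl (t : ℝ) : ℂ := 1 / 2 + t * Complex.I

/-- `(b/a)^{it}` -/
def fr (a b : ℕ) (t : ℝ) : ℂ := Complex.exp (((Real.log b - Real.log a) * t : ℝ) * Complex.I)

/-- the Gaussian window at `τ` -/
def win (η δ T τ : ℝ) (F : ℝ → ℂ) : ℂ :=
  ∫ t in (τ - δ / 2 * T)..(τ + δ / 2 * T), F t * (gw τ (Ht η T) t : ℂ)

/-- the same for real functions -/
def winR (η δ T τ : ℝ) (F : ℝ → ℝ) : ℝ :=
  ∫ t in (τ - δ / 2 * T)..(τ + δ / 2 * T), F t * gw τ (Ht η T) t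

/-- main term of `∫ ζ^j (b/a)^{it}` -/
def mt (j a b : ℕ) : ℝ := if a ∣ b then dv j (b / a) * Real.sqrt ((a : ℝ) / b) else 0

/-- coprime pairs up to `X` -/
def SP (X : ℝ) : Finset (ℕ × ℕ) :=
  ((Icc 1 ⌊X⌋₊) ×ˢ (Icc 1 ⌊X⌋₊)).filter (fun b => Nat.Coprime b.1 b.2)

/-- the coefficients of the test function, `(h, l) = b` -/
def cc (j : ℕ) (X : ℝ) (b : ℕ × ℕ) : ℝ :=
  (∑ r ∈ Icc 1 ⌊X⌋₊, if ((b.2 * r : ℕ) : ℝ) ≤ X then dv j (b.1 * r) * dv j (b.2 * r) / (r : ℝ) else 0) /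
    Real.sqrt ((b.1 : ℝ) * b.2)

/-- the test function `C(t) = Σ c(h,l) (l/h)^{it}` -/
def CC (j : ℕ) (X : ℝ) (t : ℝ) : ℂ := ∑ b ∈ SP X, (cc j X b : ℂ) * fr b.1 b.2 t

/-- the Dirichlet polynomial `V(t) = Σ_{n ≤ X} d_j(n) n^{-1/2+it}` (conjugated) -/
def VV (j : ℕ) (X : ℝ) (t : ℝ) : ℂ :=
  ∑ n ∈ Icc 1 ⌊X⌋₊, ((dv j n / Real.sqrt n : ℝ) : ℂ) * fr 1 n t

/-- `Σ c(h,l)^2` -/
def EE (j : ℕ) (X : ℝ) : ℝ := ∑ b ∈ SP X, cc j X b ^ 2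

/-- the diagonal fourth moment of `V` -/
def N4 (j : ℕ) (X : ℝ) : ℝ :=
  ∑ a ∈ Icc 1 ⌊X⌋₊, ∑ b ∈ Icc 1 ⌊X⌋₊, ∑ c ∈ Icc 1 ⌊X⌋₊, ∑ d ∈ Icc 1 ⌊X⌋₊,
    if a * b = c * d then dv j a * dv j b * dv j c * dv j d / ((a : ℝ) * b) else 0

/-- the four variable weight, variables `(h, l, r, r')` -/
def W4 (j : ℕ) (b : Fin 4 → ℕ) : ℝ :=
  if Nat.Coprime (b 0) (b 1) ∧ ∀ i, b i ≠ 0 then
    dv j (b 0 * b 2) * dv j (b 1 * b 2) * dv j (b 0 * b 3) * dv j (b 1 * b 3) /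
      ((b 0 : ℝ) * b 1 * b 2 * b 3) else 0

/-- its local weights -/
def lam4 (j : ℕ) (p : ℕ) (v : Fin 4 → ℕ) : ℝ :=
  if v 0 = 0 ∨ v 1 = 0 then
    lc j (v 0 + v 2) * lc j (v 1 + v 2) * lc j (v 0 + v 3) * lc j (v 1 + v 3) *
      (1 / (p : ℝ)) ^ (v 0 + v 1 + v 2 + v 3) else 0

/-- indicator of the region of `EE` -/
def chE (a : ℝ) (u : Fin 4 → ℝ) : ℝ := if u 0 ≤ a ∧ u 1 + u 2 ≤ a ∧ u 1 + u 3 ≤ a then 1 else 0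

/-- indicator of the region of `N4` -/
def chN (a : ℝ) (u : Fin 4 → ℝ) : ℝ :=
  if u 0 + u 2 ≤ a ∧ u 1 + u 2 ≤ a ∧ u 0 + u 3 ≤ a ∧ u 1 + u 3 ≤ a then 1 else 0

/-- exponents -/
def m4 (j : ℕ) (_ : Fin 4) : ℝ := (j : ℝ) ^ 2

/-- volume of the region of `EE` with `a = 1` -/
def volE (q : ℕ) : ℝ := ((2 * q).factorial : ℝ) / ((q.factorial : ℝ) ^ 3 * (3 * q).factorial)

/-- volume of the region of `N4` with `a = 1` -/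
def volN (q : ℕ) : ℝ := ((2 * q).factorial : ℝ) ^ 2 / ((q.factorial : ℝ) ^ 4 * (4 * q).factorial)

/-! ### Statements -/

/-- R1: mean value of `ζ^j (b/a)^{it}`, error `T^{-B}` -/
def TwZ : Prop := ∀ (j B : ℕ) (η δ : ℝ), 0 < η → η < 1 / 2 → 0 < δ → δ ≤ 1 →
  ∀ᶠ T : ℝ in atTop, ∀ τ : ℝ, δ * T ≤ τ → τ ≤ T → ∀ a b : ℕ, 1 ≤ a → (a : ℝ) ≤ T → 1 ≤ b →
    (b : ℝ) ≤ Yt η T →
    ‖win η δ T τ (fun t => riemannZeta (cl t) ^ j * fr a b t) - (mt j a b : ℂ)‖ ≤ 1 / T ^ B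

/-- R2: the same with `j = 0` -/
def TwO : Prop := ∀ (B : ℕ) (η δ : ℝ), 0 < η → η < 1 / 2 → 0 < δ → δ ≤ 1 →
  ∀ᶠ T : ℝ in atTop, ∀ τ : ℝ, δ * T ≤ τ → τ ≤ T → ∀ a b : ℕ, 1 ≤ a → (a : ℝ) ≤ T → 1 ≤ b →
    (b : ℝ) ≤ Yt η T →
    ‖win η δ T τ (fun t => fr a b t) - (if a = b then 1 else 0 : ℂ)‖ ≤ 1 / T ^ B

/-- R3: the correlation -/
def WinN : Prop := ∀ (j : ℕ) (η δ : ℝ), 1 ≤ j → 0 < η → η < 1 / 2 → 0 < δ → δ ≤ 1 →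
  ∀ᶠ T : ℝ in atTop, ∀ τ : ℝ, δ * T ≤ τ → τ ≤ T →
    EE j (Yt η T ^ (1 / 2 : ℝ)) - 1 ≤
      ‖∫ t in (τ - δ / 2 * T)..(τ + δ / 2 * T), (riemannZeta (cl t) ^ j *
        VV j (Yt η T ^ (1 / 2 : ℝ)) t) * (starRingEnd ℂ) (CC j (Yt η T ^ (1 / 2 : ℝ)) t) *
          (gw τ (Ht η T) t : ℂ)‖

/-- R4: the mean square of `C` -/
def WinC : Prop := ∀ (j : ℕ) (η δ : ℝ), 1 ≤ j → 0 < η → η < 1 / 2 → 0 < δ → δ ≤ 1 →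
  ∀ᶠ T : ℝ in atTop, ∀ τ : ℝ, δ * T ≤ τ → τ ≤ T →
    winR η δ T τ (fun t => ‖CC j (Yt η T ^ (1 / 2 : ℝ)) t‖ ^ 2) ≤ EE j (Yt η T ^ (1 / 2 : ℝ)) + 1

/-- R5: the fourth moment of `V` -/
def WinV : Prop := ∀ (j : ℕ) (η δ : ℝ), 1 ≤ j → 0 < η → η < 1 / 2 → 0 < δ → δ ≤ 1 →
  ∀ᶠ T : ℝ in atTop, ∀ τ : ℝ, δ * T ≤ τ → τ ≤ T →
    winR η δ T τ (fun t => ‖VV j (Yt η T ^ (1 / 2 : ℝ)) t‖ ^ (2 * 2)) ≤
      N4 j (Yt η T ^ (1 / 2 : ℝ)) + 1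

/-- A1: `W4` is the multiplicative function with local weights `lam4` -/
def W4mw : Prop := ∀ (j : ℕ) (b : Fin 4 → ℕ), 1 ≤ j → W4 j b = Pool.Agent.H223.EM.mw (lam4 j) b

/-- A2: the local weights -/
def LW4 : Prop := ∀ j : ℕ, 1 ≤ j → Pool.Agent.H223.EM.LW 4 (fun _ => j ^ 2) (lam4 j)

/-- A3: the local sums -/
def Loc4 : Prop := ∀ (j p : ℕ), 1 ≤ j → p.Prime →
  ∑' v : Fin 4 → ℕ, lam4 j p v = ∑' m : ℕ, lc (2 * j) m ^ 2 * (1 / (p : ℝ)) ^ m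

/-- A4: the limit theorem for `W4` -/
def Kar4 : Prop := ∀ (j : ℕ) (φ : (Fin 4 → ℝ) → ℝ) (M : ℝ), 1 ≤ j → Continuous φ → 0 ≤ M →
  (∀ u : Fin 4 → ℝ, (∀ i, 0 ≤ u i) → (∃ i, M ≤ u i) → φ u = 0) →
  Tendsto (fun L : ℝ => (∑' b, W4 j b * φ (pos L b)) / L ^ (4 * (j : ℝ) ^ 2)) atTop
    (𝓝 (aF (2 * j) * ∫ u : Fin 4 → ℝ, Gd (m4 j) u * φ u))

/-- A5: `EE` as a sum of the weight -/
def EEsum : Prop := ∀ (j : ℕ) (L a : ℝ), 1 ≤ j → 0 < L → 0 < a →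
  Summable (fun b : Fin 4 → ℕ => W4 j b * chE a (pos L b)) ∧
    EE j (Real.exp (a * L)) = ∑' b : Fin 4 → ℕ, W4 j b * chE a (pos L b)

/-- A6: `N4` as a sum of the weight -/
def N4sum : Prop := ∀ (j : ℕ) (L a : ℝ), 1 ≤ j → 0 < L → 0 < a →
  Summable (fun b : Fin 4 → ℕ => W4 j b * chN a (pos L b)) ∧
    N4 j (Real.exp (a * L)) = ∑' b : Fin 4 → ℕ, W4 j b * chN a (pos L b)

/-- V1: the volume for `EE` -/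
def VolE : Prop := ∀ (j : ℕ) (a : ℝ), 1 ≤ j → 0 < a →
  Integrable (fun u : Fin 4 → ℝ => Gd (m4 j) u * chE a u) ∧
  ∫ u : Fin 4 → ℝ, Gd (m4 j) u * chE a u = a ^ (4 * j ^ 2) * volE (j ^ 2)

/-- V2: the volume for `N4` -/
def VolN : Prop := ∀ (j : ℕ) (a : ℝ), 1 ≤ j → 0 < a →
  Integrable (fun u : Fin 4 → ℝ => Gd (m4 j) u * chN a u) ∧
  ∫ u : Fin 4 → ℝ, Gd (m4 j) u * chN a u = a ^ (4 * j ^ 2) * volN (j ^ 2)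

/-- S1: asymptotic lower bound for `EE` -/
def EElow : Prop := ∀ (j : ℕ) (c : ℝ), 1 ≤ j →
  c < aF (2 * j) * ((1 / 2) ^ (4 * j ^ 2) * volE (j ^ 2)) →
  ∀ᶠ L : ℝ in atTop, c * L ^ (4 * j ^ 2) ≤ EE j (Real.exp (1 / 2 * L))

/-- S2: asymptotic upper bound for `N4` -/
def N4up : Prop := ∀ (j : ℕ) (c : ℝ), 1 ≤ j →
  aF (2 * j) * ((1 / 2) ^ (4 * j ^ 2) * volN (j ^ 2)) < c →
  ∀ᶠ L : ℝ in atTop, N4 j (Real.exp (1 / 2 * L)) ≤ c * L ^ (4 * j ^ 2)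

/-- F1: lower bound with fixed parameters -/
def Fixed : Prop := ∀ (j : ℕ) (A K x : ℝ), 1 ≤ j → 0 < A →
  A < aF (2 * j) * ((1 / 2) ^ (4 * j ^ 2) * volE (j ^ 2)) →
  aF (2 * j) * ((1 / 2) ^ (4 * j ^ 2) * volN (j ^ 2)) < K → 0 < x → x < 1 / 4 →
  ∀ᶠ T : ℝ in atTop,
    (A ^ 2 / K) * ((1 - x) ^ 4 * (1 - 2 * x) * (1 - 2 * x) ^ (4 * j ^ 2)) *
        (T * Real.log T ^ (4 * j ^ 2)) ≤
      ∫ t in (0:ℝ)..T, ‖riemannZeta (1 / 2 + t * Complex.I)‖ ^ (4 * j)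

/-- F2: the constant -/
def Const : Prop := ∀ j : ℕ, 1 ≤ j →
  (aF (2 * j) * ((1 / 2) ^ (4 * j ^ 2) * volE (j ^ 2))) ^ 2 /
    (aF (2 * j) * ((1 / 2) ^ (4 * j ^ 2) * volN (j ^ 2))) =
  aF (2 * j) / ((4 * j ^ 2).factorial : ℝ) *
    ((1 / 2) ^ (4 * j ^ 2) * ((4 * j ^ 2).choose (j ^ 2) : ℝ) ^ 2)

/-- F3: the theorem, `k = 2j` -/
def MainK : Prop := ∀ (j : ℕ) (c : ℝ), 1 ≤ j →
  c < aF (2 * j) / ((4 * j ^ 2).factorial : ℝ) *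
    ((1 / 2) ^ (4 * j ^ 2) * ((4 * j ^ 2).choose (j ^ 2) : ℝ) ^ 2) →
  ∀ᶠ T : ℝ in atTop, c * (T * Real.log T ^ (4 * j ^ 2)) ≤
    ∫ t in (0:ℝ)..T, ‖riemannZeta (1 / 2 + t * Complex.I)‖ ^ (4 * j)

end

end H295MK
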