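import Pool.Agent.H295R2.MK.R2
import Pool.Agent.H835R2.MK_A1
import Pool.Agent.H143R2.MK_A2
import Pool.Agent.H757R2.MK_A3
import Pool.Agent.H55R2.MK_A4
import Pool.Agent.H408R2.MK_A5
import Pool.Agent.H885R2.MK_A6
import Pool.Agent.H400R2.MK_F1
import Pool.Agent.H640R2.MK_F2
import Pool.Agent.H965R2.MK_F3
import Pool.Agent.H802R2.MK_R1
import Pool.Agent.H89R2.MK_R3
import Pool.Agent.H578R2.MK_R4
import Pool.Agent.H384R2.MK_R5
import Pool.Agent.H388R2.MK_S1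
import Pool.Agent.H399R2.MK_S2
import Pool.Agent.H408R2.MK_V1
import Pool.Agent.H950R2.MK_V2

set_option autoImplicit false

namespace H295MK

theorem mainK : MainK := by
  have hR1 : TwZ := Pool.Agent.H802R2.MK.R1
  have hR2 : TwO := twO hR1
  have hR3 : WinN := Pool.Agent.H89R2.MKR3.winN hR1
  have hR4 : WinC := Pool.Agent.H578R2.MKR4.winC hR2
  have hR5 : WinV := H384MK.T_WinV hR2
  have hA4 : Kar4 := H55MK.kar4 Pool.Agent.H835R2.MK_A1.main Pool.Agent.H143R2.MK_A2.lw4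
    Pool.Agent.H757R2.MKA3.loc4
  have hS1 : EElow := H388MK.ee_low hA4 H408MKA5.eEsum_done H408MKV1.volE_done
  have hS2 : N4up := H399R2.MKS2.N4up_proof hA4 Pool.Agent.H885R2.MKA6.A6
    Pool.Agent.H950R2.MK_V2.VolN_ok
  have hF1 : Fixed := H400MK.fixed hR3 hR4 hR5 hS1 hS2
  exact Pool.Agent.H965R2.MK_F3.mainK hF1 Pool.Agent.H640R2.MK.const_holds

end H295MK
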